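import Mathlib
import Pool.Agent.Lib_helper38.AGG.Defs
import Pool.Agent.Lib_helper10.AndRank.NW

/-!
# All gadgets, no dependence on the number of coordinates (MP_e5d384_lc): definitions

Mixture functions as in `Pool.Agent.AGG`; `D` is a set of pairs (set of coordinates, point), closed
downwards in the first component.
-/

set_option autoImplicit false

namespace Pool.Agent.AGN

open Finset Pool.Agent.XA Pool.Agent.AGG Pool.Agent.Lib_helper10.LogRank

section Mixture

variable {ι : Type} [Fintype ι] [DecidableEq ι] {V : Type} [AddCommGroup V] [Fintype V]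
  [DecidableEq V]

/-- all the coordinates in `U` are set to 1 -/
def setU (U : Finset ι) (a : Finset ι → V → ℂ) : Finset ι → V → ℂ :=
  fun v χ => if Disjoint v U then ∑ s ∈ U.powerset, a (v ∪ s) χ else 0

open Classical in
/-- the alive nonconstant monomials -/
noncomputable def mon (a : Finset ι → V → ℂ) (D : Finset ι → AddChar V ℂ → Prop) :
    Finset (Finset ι × V) :=
  univ.filter fun p => p.1.Nonempty ∧ a p.1 p.2 ≠ 0 ∧ ∃ ζ, D p.1 ζ

/-- the union of the sets of coordinates of the monomials in `R` -/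
def sup1 (R : Finset (Finset ι × V)) : Finset ι := R.biUnion Prod.fst

/-- the monomial `p` is alive and alone in its class after setting `U` to 1 and restricting to the
coset `W` of the annihilator of `T` -/
def Clean (D : Finset ι → AddChar V ℂ → Prop) (M : Finset (Finset ι × V)) (U : Finset ι)
    (T : Finset V) (W : Finset (AddChar V ℂ)) (p : Finset ι × V) : Prop :=
  (p.1 \ U).Nonempty ∧ (∃ ζ ∈ W, D (U ∪ p.1) ζ) ∧
    ∀ p' ∈ M, p'.1 \ U = p.1 \ U → p'.2 - p.2 ∈ AddSubgroup.closure (T : Set V) → p' = p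

/-- closed downwards -/
def Dn (D : Finset ι → AddChar V ℂ → Prop) : Prop := ∀ z z' ζ, z' ⊆ z → D z ζ → D z' ζ

/-- every function with few characters has certificates with at most `d` characters -/
def Cert (r d : ℕ) (V : Type) [AddCommGroup V] [Fintype V] [DecidableEq V] : Prop :=
  ∀ F : V → ℂ, BF F → (spt F).card ≤ r → (∀ c, F c ≠ 0 → addOrderOf c ≤ r ^ 3) →
    ∀ ξ : AddChar V ℂ, ∃ T : Finset V, T.card ≤ d ∧ Dif F T ∧ ∀ ζ ∈ Cos T ξ, ev F ζ = ev F ξ

/-- elements and differences -/
def Ns (S : Finset V) : Finset V := S ∪ (S ×ˢ S).image fun x => x.1 - x.2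

/-- the total weight of the certificates `c` with an index `c.1` which is not in `H` -/
noncomputable def OmN {N : ℕ} (C : Finset (Fin N × Finset (AddChar V ℂ))) (H : Finset (Fin N))
    (W : Finset (AddChar V ℂ)) : ℝ := ∑ c ∈ C.filter (fun c => c.1 ∉ H), om W c.2

end Mixture

section Sampling

open Classical in
/-- the hypotheses of the sampling lemma: `al S w` (the set `S` is alive in the context `w`),
`unc m S w` (the element `m` is unclean) -/
structure Smp {M Γ : Type} [Fintype M] [DecidableEq M] (N q : ℕ) (al : Finset M → Γ → Prop)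
    (unc : M → Finset M → Γ → Prop) (w₀ : Γ) : Prop where
  anti : ∀ S S' w, S ⊆ S' → al S' w → al S w
  al0 : ∀ S w, al S w → al S w₀
  mono : ∀ m S S' w, S ⊆ S' → unc m S w → unc m S' w
  dead : ∀ m S w, al S w → ¬ al (insert m S) w → unc m S w
  rob : ∀ S w, S.card ≤ N → al S w → q * (univ.filter fun m => unc m S w).card ≤ Fintype.card M
  start : al ∅ w₀

end Sampling

section Parameters

/-- `r ≤ 2 ^ tt r` -/
def tt (r : ℕ) : ℕ := Nat.clog 2 r

/-- bound for the number of sensitive blocks, plus 1 -/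
def pD (r : ℕ) : ℕ := (tt r + 2) ^ 2 + 1

/-- number of characters -/
def pT (r d : ℕ) : ℕ := 700 * d * tt r * (2 * pD r * (2 * d))

/-- number of exceptional indices -/
def pH (r d : ℕ) : ℕ := 16 * pD r * (233 * d * tt r)

/-- logarithm of the number of cosets -/
def pc (r d : ℕ) : ℕ := 10 * tt r * pT r d

/-- number of monomials -/
def pN (r d : ℕ) : ℕ := 100 * (pc r d + 1) ^ 2

/-- a fraction `1 / pq` of the monomials is killed -/
def pq (r d : ℕ) : ℕ := 2 * (8 * pN r d) ^ 100

/-- logarithm of the number of events -/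
def pE (r d κ : ℕ) : ℕ := 2 * tt r * pN r d + 4 * tt r * pT r d + κ * pT r d

/-- cost of the protocol -/
def pF (r d κ : ℕ) : ℕ :=
  tt r * (2 * ((pE r d κ + 2) * (pq r d * (tt r + 1) + 1) + tt r + 3)) + 2

end Parameters

section Rectangles

variable {X Y : Type}

/-- `A × B` is covered by `2 ^ κ` rectangles on which `φ` is constant -/
def Cov (κ : ℕ) (A : Finset X) (B : Finset Y) (φ : X → Y → ℂ) : Prop :=
  ∃ (RX : Fin (2 ^ κ) → Finset X) (RY : Fin (2 ^ κ) → Finset Y),
    (∀ x ∈ A, ∀ y ∈ B, ∃ i, x ∈ RX i ∧ y ∈ RY i) ∧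
    ∀ i, ∀ x ∈ RX i, ∀ x' ∈ RX i, ∀ y ∈ RY i, ∀ y' ∈ RY i, φ x y = φ x' y'

variable {ι : Type} [Fintype ι] [DecidableEq ι] {V : Type} [AddCommGroup V] [Fintype V]
  [DecidableEq V]

/-- the pairs (set of coordinates, point) below the inputs `x ∈ A`, for a fixed `y` -/
def DA (A : Finset X) (P : X → Finset ι) (Q : Finset ι) (ζ : X → AddChar V ℂ) :
    Finset ι → AddChar V ℂ → Prop := fun z ζ' => ∃ x ∈ A, z ⊆ P x ∩ Q ∧ ζ' = ζ x

/-- the data of a game in which the points `x ∈ A`, `y ∈ B` remain: the function `a y` at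
the coordinates `P x ∩ Q y` and the point `ζ x y` -/
structure Dat (r κ : ℕ) (A : Finset X) (B : Finset Y) (ζ : X → Y → AddChar V ℂ)
    (a : Y → Finset ι → V → ℂ) (K : Finset (Finset ι × V)) : Prop where
  card : K.card ≤ r
  ord : ∀ p ∈ K, addOrderOf p.2 ≤ r ^ 3
  mix : ∀ y ∈ B, Mix (a y)
  sup : ∀ y ∈ B, ∀ u χ, a y u χ ≠ 0 → (u, χ) ∈ K
  cov : ∀ t ∈ Ns (K.image Prod.snd), Cov κ A B fun x y => ζ x y t

end Rectangles

section Conversion

variable {ι : Type} [Fintype ι] [DecidableEq ι] {V : Type} [AddCommGroup V] [Fintype V]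

/-- the coordinates in `N` become coordinates in a group of exponent 2 -/
def conv (N : Finset ι) (φ : Finset ι → V → ℝ) : Finset ι → V × (ι → ZMod 2) → ℝ :=
  fun z p => φ ((z \ N) ∪ N.filter fun i => p.2 i = 1) p.1

open Classical in
/-- the coordinates which occur in the character `ψ` -/
noncomputable def Sset (ψ : AddChar (V × (ι → ZMod 2)) ℂ) : Finset ι :=
  univ.filter fun i => ψ (0, Pi.single i 1) ≠ 1

end Conversion

end Pool.Agent.AGN
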